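import Pool.Agent.Q271.LSS.Grad

/-!
# Exchange of the elements of a regular sequence in a local ring; homogeneous sequences
-/

set_option autoImplicit false

namespace Run7.h514.LS

open RingTheory.Sequence IsLocalRing

section gen

variable {R : Type*} [CommRing R]

lemma wr_concat (l : List R) (a : R) :
    IsWeaklyRegular R (l ++ [a]) ↔
      IsWeaklyRegular R l ∧ ∀ y, a * y ∈ Ideal.ofList l → y ∈ Ideal.ofList l := by
  rw [isWeaklyRegular_append_iff, isWeaklyRegular_singleton_iff,
    isSMulRegular_iff_right_eq_zero_of_smul]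
  refine and_congr_right fun _ => ⟨fun h y hy => ?_, fun h x hx => ?_⟩
  · have h1 := h (Submodule.Quotient.mk y) (by
      rw [← Submodule.Quotient.mk_smul, Submodule.Quotient.mk_eq_zero, smul_eq_mul, smul_eq_mul,
        Ideal.mul_top]
      exact hy)
    rw [Submodule.Quotient.mk_eq_zero, smul_eq_mul, Ideal.mul_top] at h1
    exact h1
  · obtain ⟨y, rfl⟩ := Submodule.Quotient.mk_surjective _ x
    rw [← Submodule.Quotient.mk_smul, Submodule.Quotient.mk_eq_zero] at hx
    rw [Submodule.Quotient.mk_eq_zero]
    rw [smul_eq_mul, Ideal.mul_top] at hx ⊢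
    exact h y hx

lemma exists_unit (P K : Ideal R) (hu : ∀ a, a ∉ P → IsUnit a) (gl : List R) :
    ∀ x : R, x ∈ K ⊔ Ideal.ofList gl → x ∉ K ⊔ P * Ideal.ofList gl →
      ∃ (l1 : List R) (g : R) (l2 : List R) (u : R), gl = l1 ++ g :: l2 ∧ IsUnit u ∧
        x - u * g ∈ K ⊔ Ideal.ofList (l1 ++ l2) := by
  induction gl with
  | nil =>
    intro x hx hx'
    rw [Ideal.ofList_nil, sup_bot_eq] at hx
    exact absurd (Ideal.mem_sup_left hx) hx'
  | cons g t ih =>
    intro x hx hx'
    rw [Ideal.ofList_cons, sup_comm (Ideal.span {g}), ← sup_assoc] at hx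
    obtain ⟨y, hy, z, hz, hyz⟩ := Submodule.mem_sup.1 hx
    obtain ⟨a, rfl⟩ := Ideal.mem_span_singleton'.1 hz
    by_cases ha : a ∈ P
    · have hag : a * g ∈ P * Ideal.ofList (g :: t) := by
        refine Ideal.mul_mem_mul ha ?_
        rw [Ideal.ofList_cons]
        exact Ideal.mem_sup_left (Ideal.mem_span_singleton_self g)
      have hle : K ⊔ P * Ideal.ofList t ≤ K ⊔ P * Ideal.ofList (g :: t) := by
        refine sup_le_sup_left (Ideal.mul_mono_right ?_) _
        rw [Ideal.ofList_cons]
        exact le_sup_right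
      have hy' : y ∉ K ⊔ P * Ideal.ofList t := by
        intro h
        apply hx'
        rw [← hyz]
        exact Ideal.add_mem _ (hle h) (Ideal.mem_sup_right hag)
      obtain ⟨l1, g', l2, u, h1, h2, h3⟩ := ih y hy hy'
      refine ⟨g :: l1, g', l2, u, by rw [h1, List.cons_append], h2, ?_⟩
      have h4 : x - u * g' = (y - u * g') + a * g := by
        rw [← hyz]
        ring
      rw [h4, List.cons_append, Ideal.ofList_cons]
      refine Ideal.add_mem _ ?_ ?_
      · exact (sup_le_sup_left (le_sup_right) K) h3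
      · exact Ideal.mem_sup_right (Ideal.mem_sup_left
          (Ideal.mul_mem_left _ _ (Ideal.mem_span_singleton_self g)))
    · refine ⟨[], g, t, a, rfl, hu a ha, ?_⟩
      have h4 : x - a * g = y := by
        rw [← hyz]
        ring
      rw [h4, List.nil_append]
      exact hy

lemma exch [IsLocalRing R] [IsNoetherianRing R] (J : Ideal R) (gl : List R)
    (hg : IsWeaklyRegular R gl) (hJ : Ideal.ofList gl = J) (hm : J ≤ maximalIdeal R) (fl : List R)
    (hf : ∀ f ∈ fl, f ∈ J)
    (hcond : ∀ l1 f l2, fl = l1 ++ f :: l2 → f ∉ Ideal.ofList l1 ⊔ maximalIdeal R * J) :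
    ∃ gl', IsWeaklyRegular R (fl ++ gl') ∧ Ideal.ofList (fl ++ gl') = J := by
  induction fl using List.reverseRecOn with
  | nil => exact ⟨gl, hg, hJ⟩
  | append_singleton l f ih =>
    obtain ⟨gl0, h1, h2⟩ := ih (fun x hx => hf x (List.mem_append_left _ hx)) (by
      intro l1 x l2 hl
      exact hcond l1 x (l2 ++ [f]) (by rw [hl]; simp))
    have hfJ : f ∈ J := hf f (by simp)
    have h3 : f ∈ Ideal.ofList l ⊔ Ideal.ofList gl0 := by
      rw [← Ideal.ofList_append, h2]
      exact hfJ
    have h4 : f ∉ Ideal.ofList l ⊔ maximalIdeal R * Ideal.ofList gl0 := by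
      intro h
      have hle : Ideal.ofList l ⊔ maximalIdeal R * Ideal.ofList gl0 ≤
          Ideal.ofList l ⊔ maximalIdeal R * J := by
        refine sup_le_sup_left (Ideal.mul_mono_right ?_) _
        rw [← h2, Ideal.ofList_append]
        exact le_sup_right
      exact hcond l f [] rfl (hle h)
    obtain ⟨l1, g, l2, u, h5, h6, h7⟩ := exists_unit (maximalIdeal R) (Ideal.ofList l)
      (fun a ha => by simpa using ha) gl0 f h3 h4
    rw [h5] at h1 h2
    rw [← Ideal.ofList_append] at h7
    set m : List R := l ++ (l1 ++ l2) with hmdef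
    have hp1 : List.Perm (l ++ (l1 ++ g :: l2)) (m ++ [g]) :=
      (List.Perm.append_left l List.perm_middle).trans
        (List.perm_middle.trans (List.perm_append_singleton g _).symm)
    have hp2 : List.Perm (m ++ [f]) ((l ++ [f]) ++ (l1 ++ l2)) := by
      rw [List.append_assoc l [f], List.singleton_append]
      exact (List.perm_append_singleton f _).trans List.perm_middle.symm
    have hofl : ∀ {a b : List R}, List.Perm a b → Ideal.ofList a = Ideal.ofList b := by
      intro a b hab
      unfold Ideal.ofList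
      congr 1
      ext x
      exact hab.mem_iff
    have hJg : Ideal.ofList m ⊔ Ideal.span {g} = J := by
      rw [← h2, hofl hp1, Ideal.ofList_append m [g], Ideal.ofList_singleton]
    have hmJ : Ideal.ofList m ≤ J := by
      rw [← hJg]
      exact le_sup_left
    have hw1 : IsWeaklyRegular R (m ++ [g]) :=
      isWeaklyRegular_of_perm_of_subset_maximalIdeal h1 hp1 (by
        intro r hr
        apply hm
        rw [← h2]
        exact Ideal.subset_span hr)
    have hJf : Ideal.ofList m ⊔ Ideal.span {f} = J := by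
      apply le_antisymm
      · exact sup_le hmJ ((Ideal.span_singleton_le_iff_mem _).2 hfJ)
      · rw [← hJg]
        refine sup_le le_sup_left ((Ideal.span_singleton_le_iff_mem _).2 ?_)
        obtain ⟨v, hv⟩ := h6.exists_left_inv
        have h8 : g = v * f - v * (f - u * g) := by
          linear_combination (-g) * hv
        rw [h8]
        exact Ideal.sub_mem _ (Ideal.mem_sup_right
          (Ideal.mul_mem_left _ _ (Ideal.mem_span_singleton_self f)))
          (Ideal.mem_sup_left (Ideal.mul_mem_left _ _ h7))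
    have hw2 : IsWeaklyRegular R (m ++ [f]) := by
      rw [wr_concat] at hw1 ⊢
      refine ⟨hw1.1, fun y hy => ?_⟩
      have h8 : g * (u * y) ∈ Ideal.ofList m := by
        have h9 : g * (u * y) = f * y - (f - u * g) * y := by ring
        rw [h9]
        exact Ideal.sub_mem _ hy (Ideal.mul_mem_right _ _ h7)
      have h9 := hw1.2 _ h8
      exact (Ideal.unit_mul_mem_iff_mem _ h6).1 h9
    refine ⟨l1 ++ l2, ?_, ?_⟩
    · refine isWeaklyRegular_of_perm_of_subset_maximalIdeal hw2 hp2 ?_
      intro r hr
      apply hm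
      rw [← hJf]
      rcases List.mem_append.1 hr with h | h
      · exact Ideal.mem_sup_left (Ideal.subset_span h)
      · rw [List.mem_singleton.1 h]
        exact Ideal.mem_sup_right (Ideal.mem_span_singleton_self f)
    · rw [← hofl hp2, Ideal.ofList_append m [f], Ideal.ofList_singleton]
      exact hJf

end gen

section hom

open MvPolynomial

variable {σ k : Type*} [Field k]

/-- The origin. -/
noncomputable def orig (σ k : Type*) [Field k] : Ideal (MvPolynomial σ k) :=
  RingHom.ker (constantCoeff : MvPolynomial σ k →+* k)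

instance orig_prime : (orig σ k).IsPrime := RingHom.ker_isPrime _

lemma cancel {G : Set (MvPolynomial σ k)} (hG : ∀ g ∈ G, ∃ n, g.IsHomogeneous n)
    {r q : MvPolynomial σ k} (hr : constantCoeff r ≠ 0) (hrq : r * q ∈ Ideal.span G) :
    q ∈ Ideal.span G := by
  refine Pool.Agent.Q271.LSS.mem_of_mul_mem hG (r := C (constantCoeff r)⁻¹ * r) ?_ ?_
  · rw [map_mul, constantCoeff_C, inv_mul_cancel₀ hr]
  · rw [mul_assoc]
    exact Ideal.mul_mem_left _ _ hrq

lemma mem_of_loc (I : Ideal (MvPolynomial σ k)) (x : MvPolynomial σ k)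
    (h : algebraMap _ (Localization.AtPrime (orig σ k)) x ∈
      I.map (algebraMap _ (Localization.AtPrime (orig σ k)))) :
    ∃ u : MvPolynomial σ k, constantCoeff u ≠ 0 ∧ u * x ∈ I := by
  obtain ⟨u, hu, h1⟩ := (IsLocalization.algebraMap_mem_map_algebraMap_iff
    (orig σ k).primeCompl (Localization.AtPrime (orig σ k)) I x).1 h
  exact ⟨u, fun h0 => hu h0, h1⟩

lemma descend (fl : List (MvPolynomial σ k)) (hh : ∀ f ∈ fl, ∃ n, f.IsHomogeneous n)
    (h : IsWeaklyRegular (Localization.AtPrime (orig σ k))
      (fl.map (algebraMap _ (Localization.AtPrime (orig σ k))))) :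
    IsWeaklyRegular (MvPolynomial σ k) fl := by
  induction fl using List.reverseRecOn with
  | nil => exact IsWeaklyRegular.nil _ _
  | append_singleton l f ih =>
    rw [List.map_append, List.map_singleton, wr_concat] at h
    rw [wr_concat]
    refine ⟨ih (fun x hx => hh x (List.mem_append_left _ hx)) h.1, fun y hy => ?_⟩
    have h1 := h.2 (algebraMap _ _ y) (by
      rw [← map_mul, ← Ideal.map_ofList]
      exact Ideal.mem_map_of_mem _ hy)
    rw [← Ideal.map_ofList] at h1
    obtain ⟨u, hu, h2⟩ := mem_of_loc _ _ h1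
    exact cancel (fun g hg => hh g (List.mem_append_left _ hg)) hu h2

end hom

end Run7.h514.LS
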